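import Pool.Agent.Lib.MP_c3d375_an.Neg.Iface

/-!
# MP_c3d375, module NU: scalar facts (Harnack, Schwarz-Pick)
-/

open Complex Metric Set Filter Topology ComplexConjugate

namespace C3N.H14

theorem add_conj_ne {p b : ℂ} (hb : 0 < b.re) (hp : 0 < p.re) : p + conj b ≠ 0 := by
  intro h
  have := congrArg Complex.re h
  simp at this
  linarith

theorem cayley_le {p b : ℂ} (hb : 0 < b.re) (hp : 0 < p.re) :
    ‖(p - b) / (p + conj b)‖ ≤ 1 := by
  rw [norm_div]
  apply div_le_one_of_le₀ _ (norm_nonneg _)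
  rw [← sq_le_sq₀ (norm_nonneg _) (norm_nonneg _), Complex.sq_norm, Complex.sq_norm,
    Complex.normSq_apply, Complex.normSq_apply]
  simp only [sub_re, sub_im, add_re, add_im, conj_re, conj_im]
  nlinarith [mul_pos hb hp]

/-- Schwarz-Pick at `0`, difference form -/
theorem sp0 {h : ℂ → ℂ} (hd : DifferentiableOn ℂ h (ball 0 1))
    (hp : ∀ z ∈ ball (0 : ℂ) 1, 0 < (h z).re) {z : ℂ} (hz : z ∈ ball (0 : ℂ) 1) :
    ‖h z - h 0‖ ≤ ‖z‖ * ‖h z + conj (h 0)‖ := by
  have h00 : (0 : ℂ) ∈ ball (0 : ℂ) 1 := by simp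
  have hgd : DifferentiableOn ℂ (fun z => (h z - h 0) / (h z + conj (h 0))) (ball 0 1) :=
    (hd.sub_const _).div (hd.add_const _) fun w hw => add_conj_ne (hp 0 h00) (hp w hw)
  have hm : MapsTo (fun z => (h z - h 0) / (h z + conj (h 0))) (ball 0 1) (closedBall 0 1) := by
    intro w hw
    rw [mem_closedBall_zero_iff]
    exact cayley_le (hp 0 h00) (hp w hw)
  have := Complex.norm_le_norm_of_mapsTo_ball hgd hm (by simp) (mem_ball_zero_iff.1 hz)
  simp only [norm_div] at this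
  rwa [div_le_iff₀ (norm_pos_iff.2 (add_conj_ne (hp 0 h00) (hp z hz)))] at this

/-- Schwarz-Pick at `0`, derivative form -/
theorem sp1 {h : ℂ → ℂ} (hd : DifferentiableOn ℂ h (ball 0 1))
    (hp : ∀ z ∈ ball (0 : ℂ) 1, 0 < (h z).re) :
    ‖deriv h 0‖ ≤ 2 * (h 0).re := by
  have h00 : (0 : ℂ) ∈ ball (0 : ℂ) 1 := by simp
  have hgd : DifferentiableOn ℂ (fun z => (h z - h 0) / (h z + conj (h 0))) (ball 0 1) :=
    (hd.sub_const _).div (hd.add_const _) fun w hw => add_conj_ne (hp 0 h00) (hp w hw)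
  have hm : MapsTo (fun z => (h z - h 0) / (h z + conj (h 0))) (ball 0 1)
      (closedBall ((fun z => (h z - h 0) / (h z + conj (h 0))) 0) 1) := by
    intro w hw
    simp only [sub_self, zero_div]
    rw [mem_closedBall_zero_iff]
    exact cayley_le (hp 0 h00) (hp w hw)
  have h1 := Complex.norm_deriv_le_one_of_mapsTo_ball hgd hm one_pos
  have hd0 : HasDerivAt h (deriv h 0) 0 :=
    (hd.differentiableAt (ball_mem_nhds 0 one_pos)).hasDerivAt
  have h2 : HasDerivAt (fun z => (h z - h 0) / (h z + conj (h 0)))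
      ((deriv h 0 * (h 0 + conj (h 0)) - (h 0 - h 0) * deriv h 0) / (h 0 + conj (h 0)) ^ 2) 0 :=
    (hd0.sub_const _).div (hd0.add_const _) (add_conj_ne (hp 0 h00) (hp 0 h00))
  rw [h2.deriv, sub_self, zero_mul, sub_zero, pow_two, mul_div_mul_right _ _
    (add_conj_ne (hp 0 h00) (hp 0 h00)), norm_div,
    div_le_iff₀ (norm_pos_iff.2 (add_conj_ne (hp 0 h00) (hp 0 h00))), one_mul] at h1
  refine h1.trans ?_
  rw [add_conj, norm_real, Real.norm_eq_abs, abs_of_pos]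
  linarith [hp 0 h00]

theorem norm_mul_lt {a : ℝ} (ha0 : 0 ≤ a) (ha1 : a < 1) {z : ℂ} (hz : ‖z‖ < 1) :
    ‖(a : ℂ) * z‖ < 1 := by
  rw [norm_mul, norm_real, Real.norm_eq_abs, abs_of_nonneg ha0]
  nlinarith [norm_nonneg z]

theorem moeb_mem {a : ℝ} (ha0 : 0 ≤ a) (ha1 : a < 1) {z : ℂ} (hz : z ∈ ball (0 : ℂ) 1) :
    1 + a * z ≠ 0 ∧ (z + a) / (1 + a * z) ∈ ball (0 : ℂ) 1 := by
  rw [mem_ball_zero_iff] at hz
  have h1 : 1 + (a : ℂ) * z ≠ 0 := by
    intro h
    have h2 : (a : ℂ) * z = -1 := by linear_combination h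
    have h3 := norm_mul_lt ha0 ha1 hz
    rw [h2] at h3
    simp at h3
  refine ⟨h1, ?_⟩
  rw [mem_ball_zero_iff, norm_div, div_lt_one (norm_pos_iff.2 h1),
    ← sq_lt_sq₀ (norm_nonneg _) (norm_nonneg _), Complex.sq_norm, Complex.sq_norm,
    Complex.normSq_apply, Complex.normSq_apply]
  have h4 : z.re * z.re + z.im * z.im < 1 := by
    rw [← Complex.normSq_apply, ← Complex.sq_norm]
    nlinarith [norm_nonneg z]
  simp only [add_re, add_im, mul_re, mul_im, ofReal_re, ofReal_im, one_re, one_im]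
  have h5 : 0 < 1 - a ^ 2 := by nlinarith
  nlinarith [mul_pos h5 (sub_pos.2 h4)]

/-- Schwarz-Pick at `a`, derivative form -/
theorem sp2 {h : ℂ → ℂ} (hd : DifferentiableOn ℂ h (ball 0 1))
    (hp : ∀ z ∈ ball (0 : ℂ) 1, 0 < (h z).re) {a : ℝ} (ha0 : 0 ≤ a) (ha1 : a < 1) :
    ‖deriv h a‖ * (1 - a ^ 2) ≤ 2 * (h a).re := by
  have hφ : ∀ z ∈ ball (0 : ℂ) 1, (z + a) / (1 + a * z) ∈ ball (0 : ℂ) 1 := fun z hz =>
    (moeb_mem ha0 ha1 hz).2
  have hφd : DifferentiableOn ℂ (fun z : ℂ => (z + a) / (1 + a * z)) (ball 0 1) :=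
    (differentiableOn_id.add_const _).div
      ((differentiableOn_const _).add ((differentiableOn_const _).mul differentiableOn_id))
      fun z hz => (moeb_mem ha0 ha1 hz).1
  have h1 := sp1 (h := fun z => h ((z + a) / (1 + a * z))) (hd.comp hφd hφ)
    (fun z hz => hp _ (hφ z hz))
  have h00 : (0 : ℂ) ∈ ball (0 : ℂ) 1 := by simp
  have haa : (a : ℂ) ∈ ball (0 : ℂ) 1 := by
    rw [mem_ball_zero_iff, norm_real, Real.norm_eq_abs, abs_of_nonneg ha0]
    exact ha1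
  have hda : HasDerivAt h (deriv h a) ((fun z : ℂ => (z + a) / (1 + a * z)) 0) := by
    simp only [zero_add, mul_zero, add_zero, div_one]
    exact (hd.differentiableAt (isOpen_ball.mem_nhds haa)).hasDerivAt
  have h3 : HasDerivAt (fun z : ℂ => (z + a) / (1 + a * z))
      ((1 * (1 + (a : ℂ) * 0) - (0 + (a : ℂ)) * (a * 1)) / (1 + (a : ℂ) * 0) ^ 2) 0 := by
    have e1 : HasDerivAt (fun z : ℂ => z + a) 1 0 := (hasDerivAt_id 0).add_const _
    have e2 : HasDerivAt (fun z : ℂ => 1 + (a : ℂ) * z) ((a : ℂ) * 1) 0 :=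
      ((hasDerivAt_id (0 : ℂ)).const_mul (a : ℂ)).const_add 1
    exact e1.div e2 (moeb_mem ha0 ha1 h00).1
  have h4 : HasDerivAt (fun z : ℂ => h ((z + a) / (1 + a * z))) _ 0 := hda.comp 0 h3
  rw [h4.deriv] at h1
  simp only [mul_zero, add_zero, zero_add, mul_one, one_pow, div_one] at h1
  rw [norm_mul] at h1
  have h6 : ‖(1 : ℂ) - a * a‖ = 1 - a ^ 2 := by
    have : (1 : ℂ) - a * a = ((1 - a ^ 2 : ℝ) : ℂ) := by push_cast; ring
    rw [this, norm_real, Real.norm_eq_abs, abs_of_pos]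
    nlinarith
  rwa [h6] at h1

/-- bound at `a` -/
theorem norm_le_of_sp {p b : ℂ} {a : ℝ} (ha0 : 0 ≤ a) (ha1 : a < 1) (hb : ‖b‖ = 1)
    (h : ‖p - b‖ ≤ a * ‖p + conj b‖) : ‖p‖ ≤ 2 / (1 - a) - 1 := by
  have h1 : ‖p‖ - ‖b‖ ≤ ‖p - b‖ := norm_sub_norm_le _ _
  have h2 : ‖p + conj b‖ ≤ ‖p‖ + ‖conj b‖ := norm_add_le _ _
  rw [RCLike.norm_conj, hb] at h2
  rw [hb] at h1
  have h3 : 0 < 1 - a := by linarith
  have h4 : ‖p‖ * (1 - a) ≤ 1 + a := by nlinarith [mul_le_mul_of_nonneg_left h2 ha0]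
  rw [le_sub_iff_add_le, le_div_iff₀ h3]
  nlinarith

/-- Harnack from below -/
theorem re_ge_of_sp {p b : ℂ} {a : ℝ} (ha0 : 0 ≤ a) (ha1 : a < 1) (hb : 0 < b.re)
    (hp : 0 < p.re) (h : ‖p - b‖ ≤ a * ‖p + conj b‖) : b.re * (1 - a) ≤ p.re * (1 + a) := by
  have h1 : ‖p - b‖ ^ 2 ≤ (a * ‖p + conj b‖) ^ 2 := pow_le_pow_left₀ (norm_nonneg _) h 2
  rw [mul_pow, Complex.sq_norm, Complex.sq_norm, Complex.normSq_apply,
    Complex.normSq_apply] at h1
  simp only [sub_re, sub_im, add_re, add_im, conj_re, conj_im] at h1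
  have h5 : 0 < 1 - a ^ 2 := by nlinarith
  have h2 : (p.re - b.re) ^ 2 ≤ (a * (p.re + b.re)) ^ 2 := by
    nlinarith [mul_nonneg h5.le (sq_nonneg (p.im - b.im))]
  have h3 := abs_le_of_sq_le_sq h2 (mul_nonneg ha0 (by linarith))
  have h4 := (abs_le.1 h3).1
  nlinarith

theorem mem1 {r : ℝ} (hr : 1 < r) {z : ℂ} (hz : z ∈ ball (0 : ℂ) 1) : z ∈ ball (0 : ℂ) r :=
  ball_subset_ball hr.le hz

theorem ofReal_mem {a r : ℝ} (ha0 : 0 ≤ a) (ha : a < r) : (a : ℂ) ∈ ball (0 : ℂ) r := by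
  rw [mem_ball_zero_iff, norm_real, Real.norm_eq_abs, abs_of_nonneg ha0]
  exact ha

theorem one_sub_norm {a r : ℝ} (ha : 1 / 2 ≤ a) (hr' : r ≤ (1 + a) / (2 * a)) {z : ℂ}
    (hz : z ∈ ball (0 : ℂ) r) : (1 - a) / 2 ≤ ‖1 - (a : ℂ) * z‖ := by
  rw [mem_ball_zero_iff] at hz
  have ha0 : 0 < a := by linarith
  have h1 : ‖(a : ℂ) * z‖ ≤ (1 + a) / 2 := by
    rw [norm_mul, norm_real, Real.norm_eq_abs, abs_of_pos ha0]
    rw [le_div_iff₀ (by linarith)] at hr'
    nlinarith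
  have h2 : ‖(1 : ℂ)‖ - ‖(a : ℂ) * z‖ ≤ ‖1 - (a : ℂ) * z‖ := norm_sub_norm_le _ _
  rw [norm_one] at h2
  linarith

/-- module NU -/
theorem nu_st : NUStatement := by
  intro a ha ha1 r hr hr' q hq
  have ha0 : 0 < a := by linarith
  have h1a : 0 < 1 - a := by linarith
  have m0 : (0 : ℂ) ∈ ball (0 : ℂ) r := mem_ball_self (by linarith)
  have m01 : (0 : ℂ) ∈ ball (0 : ℂ) 1 := mem_ball_self one_pos
  have ma : (a : ℂ) ∈ ball (0 : ℂ) r := ofReal_mem ha0.le (by linarith)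
  have ma1 : (a : ℂ) ∈ ball (0 : ℂ) 1 := ofReal_mem ha0.le ha1
  have hρ : 0 < rho q := by
    rw [rho, norm_pos_iff]
    intro h
    have := hq.re_pos 0 m0
    rw [h] at this
    simp at this
  have hρ2 : rho q ≤ 3 / 2 := by
    have := hq.bdd 0 (by simp)
    rw [rho]
    nlinarith [norm_nonneg (fn q 0)]
  have hqh : ∀ z : ℂ, fn (qh q) z = ((rho q)⁻¹ : ℂ) * fn q z := fun z => by rw [qh, fn_smul]
  have hqh0 : ‖fn (qh q) 0‖ = 1 := by
    rw [hqh, norm_mul, norm_inv, norm_real, Real.norm_eq_abs, abs_of_pos hρ]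
    exact inv_mul_cancel₀ hρ.ne'
  have hqhre : ∀ z ∈ ball (0 : ℂ) r, 0 < (fn (qh q) z).re := by
    intro z hz
    rw [hqh, ← ofReal_inv, re_ofReal_mul]
    exact mul_pos (inv_pos.2 hρ) (hq.re_pos z hz)
  have hqhsq : ∀ z ∈ ball (0 : ℂ) r, 0 < ((fn (qh q) z) ^ 2).re := by
    intro z hz
    rw [hqh, mul_pow, ← ofReal_inv, ← ofReal_pow, re_ofReal_mul]
    exact mul_pos (pow_pos (inv_pos.2 hρ) 2) (hq.re_sq_pos z hz)
  have hqhne : ∀ z ∈ ball (0 : ℂ) r, fn (qh q) z ≠ 0 := by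
    intro z hz h
    have := hqhre z hz
    rw [h] at this
    simp at this
  have hqhd : DifferentiableOn ℂ (fn (qh q)) (ball 0 r) := fn_differentiableOn _
  -- the function `H`
  have hHd : DifferentiableOn ℂ (fun z => (fn (qh q) z) ^ 2) (ball 0 1) :=
    (hqhd.pow 2).mono (ball_subset_ball hr.le)
  have hHp : ∀ z ∈ ball (0 : ℂ) 1, 0 < ((fn (qh q) z) ^ 2).re := fun z hz =>
    hqhsq z (mem1 hr hz)
  have hHn : ∀ z ∈ ball (0 : ℂ) 1, (fn (qh q) z) ^ 2 ≠ 0 := fun z hz =>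
    pow_ne_zero 2 (hqhne z (mem1 hr hz))
  have hH0 : ‖(fn (qh q) 0) ^ 2‖ = 1 := by rw [norm_pow, hqh0, one_pow]
  have hIp : ∀ z ∈ ball (0 : ℂ) 1, 0 < (((fn (qh q) z) ^ 2)⁻¹).re := by
    intro z hz
    rw [inv_re]
    exact div_pos (hHp z hz) (normSq_pos.2 (hHn z hz))
  have hId : DifferentiableOn ℂ (fun z => ((fn (qh q) z) ^ 2)⁻¹) (ball 0 1) := hHd.inv hHn
  have hI0 : ‖((fn (qh q) 0) ^ 2)⁻¹‖ = 1 := by rw [norm_inv, hH0, inv_one]
  have na : ‖(a : ℂ)‖ = a := by rw [norm_real, Real.norm_eq_abs, abs_of_pos ha0]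
  have s1 := sp0 hHd hHp ma1
  have s2 := sp0 hId hIp ma1
  have s3 := sp2 hHd hHp ha0.le ha1
  rw [na] at s1 s2
  have hnure : (nu q a).re = ((fn (qh q) a) ^ 2).re := by rw [nu, conj_re]
  have hnup : 0 < (nu q a).re := by rw [hnure]; exact hHp a ma1
  have hnun : ‖nu q a‖ = ‖(fn (qh q) a) ^ 2‖ := by rw [nu, RCLike.norm_conj]
  have hnu0 : nu q a ≠ 0 := by
    intro h
    rw [h] at hnup
    simp at hnup
  have b1 : ‖nu q a‖ ≤ 2 / (1 - a) - 1 := by
    rw [hnun]; exact norm_le_of_sp ha0.le ha1 hH0 s1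
  have b2 : ‖(nu q a)⁻¹‖ ≤ 2 / (1 - a) - 1 := by
    rw [norm_inv, hnun, ← norm_inv]; exact norm_le_of_sp ha0.le ha1 hI0 s2
  have h23 : 2 / (1 - a) - 1 ≤ 3 / (1 - a) := by
    have : 2 / (1 - a) ≤ 3 / (1 - a) := div_le_div_of_nonneg_right (by norm_num) h1a.le
    linarith
  have h1a2 : 0 < 1 - a ^ 2 := by nlinarith
  have hkap : ‖kap q a‖ ≤ 2 * a * (nu q a).re / (1 - a ^ 2) := by
    rw [kap, norm_mul, RCLike.norm_conj, na, le_div_iff₀ h1a2, hnure]
    nlinarith [mul_le_mul_of_nonneg_left s3 ha0.le]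
  refine ⟨hρ, hρ2, hqh, hqh0, hnup, b1.trans h23, b2.trans h23, hkap, ?_, ?_, ?_⟩
  · rw [norm_mul, norm_pow, inv_re, normSq_eq_norm_sq, norm_inv]
    have hn : 0 < ‖nu q a‖ := norm_pos_iff.2 hnu0
    have e : 2 * a * ((nu q a).re / ‖nu q a‖ ^ 2) / (1 - a ^ 2) =
        2 * a * (nu q a).re / (1 - a ^ 2) * (‖nu q a‖⁻¹) ^ 2 := by
      field_simp
    rw [e]
    exact mul_le_mul_of_nonneg_right hkap (by positivity)
  · intro hb
    have hb0 : 0 < ((fn (qh q) 0) ^ 2).re := by linarith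
    have k1 := re_ge_of_sp ha0.le ha1 hb0 (hHp a ma1) s1
    rw [← hnure] at k1
    have hne : nu q a + 1 ≠ 0 := by
      intro h
      have := congrArg Complex.re h
      simp at this
      linarith
    have k2 : ‖nu q a + 1‖ ≤ 2 / (1 - a) := by
      have := norm_add_le (nu q a) 1
      rw [norm_one] at this
      linarith
    have k3 : ‖nu q a + 1‖ ^ 2 * (1 - a) ^ 2 ≤ 4 := by
      rw [le_div_iff₀ h1a] at k2
      nlinarith [mul_nonneg (norm_nonneg (nu q a + 1)) h1a.le]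
    have hnp : 0 < ‖nu q a + 1‖ ^ 2 := pow_pos (norm_pos_iff.2 hne) 2
    rw [norm_div, div_pow, div_le_iff₀ hnp]
    have e1 : ‖nu q a - 1‖ ^ 2 = ‖nu q a + 1‖ ^ 2 - 4 * (nu q a).re := by
      rw [Complex.sq_norm, Complex.sq_norm, Complex.normSq_apply, Complex.normSq_apply]
      simp only [sub_re, sub_im, add_re, add_im, one_re, one_im]
      ring
    rw [e1]
    have k4 : (1 - a) / 4 ≤ (nu q a).re := by nlinarith
    have k5 : ‖nu q a + 1‖ ^ 2 * (1 - a) ^ 3 ≤ 4 * (1 - a) := by nlinarith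
    nlinarith
  · intro z hz
    have hj0 : 1 + (fn (qh q) z) ^ 2 ≠ 0 := by
      intro h
      have := congrArg Complex.re h
      have h2 := hqhsq z hz
      rw [add_re, one_re, zero_re] at this
      linarith
    have hjd : DifferentiableOn ℂ (fun z => (1 + (fn (qh q) z) ^ 2)⁻¹) (ball 0 r) := by
      refine ((differentiableOn_const _).add (hqhd.pow 2)).inv ?_
      intro w hw h
      have := congrArg Complex.re h
      have h2 := hqhsq w hw
      simp only [Pi.add_apply, Pi.pow_apply, add_re, one_re, zero_re] at this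
      linarith
    have hB : ∀ w ∈ ball (0 : ℂ) r, 1 - (a : ℂ) * w ≠ 0 := by
      intro w hw h
      have := one_sub_norm ha hr' hw
      rw [h, norm_zero] at this
      linarith
    have hBd : DifferentiableOn ℂ (fun w => 1 / (1 - (a : ℂ) * w)) (ball 0 r) :=
      (differentiableOn_const _).div
        ((differentiableOn_const _).sub ((differentiableOn_const _).mul differentiableOn_id)) hB
    have hjj : ∀ w ∈ ball (0 : ℂ) r, fn (jj q) w = (1 + (fn (qh q) w) ^ 2)⁻¹ := fun w hw =>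
      fn_hol hjd hw
    have hKf : ∀ w ∈ ball (0 : ℂ) r,
        fn (qh q * jj q) w = fn (qh q) w * (1 + (fn (qh q) w) ^ 2)⁻¹ := fun w hw => by
      rw [fn_mul, hjj w hw]
    have hE : ∀ w ∈ ball (0 : ℂ) r,
        1 + ((nu q a - 1) ^ 2 / nu q a) * (fn (qh q * jj q) w) ^ 2 ≠ 0 := by
      intro w hw
      have hw1 : 1 + (fn (qh q) w) ^ 2 ≠ 0 := by
        intro h
        have := congrArg Complex.re h
        have h2 := hqhsq w hw
        rw [add_re, one_re, zero_re] at this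
        linarith
      rw [hKf w hw]
      have e : 1 + ((nu q a - 1) ^ 2 / nu q a) * (fn (qh q) w * (1 + (fn (qh q) w) ^ 2)⁻¹) ^ 2 =
          (nu q a + (fn (qh q) w) ^ 2) * (1 + nu q a * (fn (qh q) w) ^ 2) /
            (nu q a * (1 + (fn (qh q) w) ^ 2) ^ 2) := by
        field_simp
        ring
      rw [e]
      refine div_ne_zero (mul_ne_zero ?_ ?_) (mul_ne_zero hnu0 (pow_ne_zero 2 hw1))
      · intro h
        have := congrArg Complex.re h
        have h2 := hqhsq w hw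
        rw [add_re, zero_re] at this
        linarith
      · intro h
        have h3 : nu q a * (fn (qh q) w) ^ 2 = -1 := by linear_combination h
        have h2 := hqhsq w hw
        have h4 : (fn (qh q) w) ^ 2 = -(nu q a)⁻¹ := by
          field_simp
          linear_combination h3
        rw [h4, neg_re, inv_re] at h2
        have : 0 < (nu q a).re / normSq (nu q a) := div_pos hnup (normSq_pos.2 hnu0)
        linarith
    refine ⟨fn_hol (hqhd.inv hqhne) hz, hjj z hz, fn_hol hBd hz, ?_, ?_, hE z hz, ?_⟩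
    · have : fn (Bf a r) z = 1 / (1 - (a : ℂ) * z) := fn_hol hBd hz
      rw [this, norm_div, norm_one, div_le_div_iff₀ (norm_pos_iff.2 (hB z hz)) h1a]
      have := one_sub_norm ha hr' hz
      linarith
    · refine fn_hol (ψ := fun z =>
        (1 + ((nu q a - 1) ^ 2 / nu q a) * (fn (qh q * jj q) z) ^ 2)⁻¹) ?_ hz
      exact ((differentiableOn_const _).add
        ((differentiableOn_const _).mul ((fn_differentiableOn _).pow 2))).inv hE
    · refine fn_hol (ψ := fun z => fn q z / (1 + (fn q z) ^ 2 / 8)) ?_ hz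
      refine (fn_differentiableOn q).div
        ((differentiableOn_const _).add (((fn_differentiableOn q).pow 2).div_const _)) ?_
      intro w hw h
      have h1 := congrArg Complex.re h
      have h2 := hq.re_sq_pos w hw
      rw [add_re, one_re, zero_re] at h1
      have h3 : ((fn q w) ^ 2 / 8).re = ((fn q w) ^ 2).re / 8 := by
        have : (8 : ℂ) = ((8 : ℝ) : ℂ) := by norm_num
        rw [this, div_ofReal_re]
      rw [h3] at h1
      linarith

end C3N.H14
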